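import Mathlib

/-! KC-2, first part: the area mean value inequality. -/

set_option autoImplicit false
open MeasureTheory Set

namespace Pool.Agent.Helper9.KC

theorem circle_mean {g : ℂ → ℂ} (hg : Differentiable ℂ g) (z : ℂ) (R : ℝ) :
    2 * Real.pi * ‖g z‖ ≤ ∫ θ in Ioo (-Real.pi) Real.pi,
      ‖g (z + (R * Real.cos θ : ℝ) + (R * Real.sin θ : ℝ) * Complex.I)‖ := by
  have hpi := Real.pi_pos
  have h1 : Real.circleAverage g z R = g z := hg.diffContOnCl.circleAverage
  have h2 : g z = (2 * Real.pi)⁻¹ • ∫ θ in (0 : ℝ)..2 * Real.pi, g (circleMap z R θ) := by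
    rw [← h1]; rfl
  have hper : Function.Periodic (fun θ : ℝ => g (circleMap z R θ)) (2 * Real.pi) := by
    intro θ
    simp only [periodic_circleMap z R θ]
  have h3 : ∫ θ in (0 : ℝ)..2 * Real.pi, g (circleMap z R θ) =
      ∫ θ in (-Real.pi)..Real.pi, g (circleMap z R θ) := by
    have := hper.intervalIntegral_add_eq 0 (-Real.pi)
    rw [zero_add] at this
    rw [this]
    congr 1
    ring
  have h4 : ‖g z‖ ≤ (2 * Real.pi)⁻¹ * ∫ θ in (-Real.pi)..Real.pi, ‖g (circleMap z R θ)‖ := by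
    rw [h2, norm_smul, Real.norm_of_nonneg (by positivity), h3]
    refine mul_le_mul_of_nonneg_left ?_ (by positivity)
    exact intervalIntegral.norm_integral_le_integral_norm (by linarith)
  have h5 : 2 * Real.pi * ‖g z‖ ≤ ∫ θ in (-Real.pi)..Real.pi, ‖g (circleMap z R θ)‖ := by
    have h6 := mul_le_mul_of_nonneg_left h4 (show 0 ≤ 2 * Real.pi by positivity)
    rwa [← mul_assoc, mul_inv_cancel₀ (by positivity), one_mul] at h6
  refine h5.trans (le_of_eq ?_)
  rw [intervalIntegral.integral_of_le (by linarith), integral_Ioc_eq_integral_Ioo]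
  refine setIntegral_congr_fun measurableSet_Ioo ?_
  intro θ _
  show ‖g (circleMap z R θ)‖ = _
  congr 2
  rw [circleMap, Complex.exp_mul_I]
  push_cast
  ring

/-- the open disc of radius `r` about `z`, in coordinates -/
def disc (z : ℂ) (r : ℝ) : Set (ℝ × ℝ) := {p | (p.1 - z.re) ^ 2 + (p.2 - z.im) ^ 2 < r ^ 2}

theorem measurableSet_disc (z : ℂ) (r : ℝ) : MeasurableSet (disc z r) :=
  measurableSet_lt (by fun_prop) (by fun_prop)

/-- the area mean value inequality, in coordinates -/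
theorem area_mean {g : ℂ → ℂ} (hg : Differentiable ℂ g) (z : ℂ) {r : ℝ} (hr : 0 < r) :
    Real.pi * r ^ 2 * ‖g z‖ ≤
      ∫ p in disc z r, ‖g ((p.1 : ℂ) + (p.2 : ℂ) * Complex.I)‖ := by
  have hpi := Real.pi_pos
  have hgc : Continuous g := hg.continuous
  let φ : ℝ × ℝ → ℝ := (disc z r).indicator fun p => ‖g ((p.1 : ℂ) + (p.2 : ℂ) * Complex.I)‖
  have h0 : ∫ p in disc z r, ‖g ((p.1 : ℂ) + (p.2 : ℂ) * Complex.I)‖ = ∫ p, φ p :=
    (integral_indicator (measurableSet_disc z r)).symm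
  have h1 : ∫ p, φ p = ∫ p : ℝ × ℝ, φ (p + (z.re, z.im)) :=
    (integral_add_right_eq_self φ (z.re, z.im)).symm
  have h2 : ∫ p : ℝ × ℝ, φ (p + (z.re, z.im)) =
      ∫ p in polarCoord.target, p.1 • φ (polarCoord.symm p + (z.re, z.im)) :=
    (integral_comp_polarCoord_symm (fun p => φ (p + (z.re, z.im)))).symm
  let ψ : ℝ × ℝ → ℝ := fun p => p.1 * ‖g (z + (p.1 * Real.cos p.2 : ℝ) +
    (p.1 * Real.sin p.2 : ℝ) * Complex.I)‖
  have h3 : ∫ p in polarCoord.target, p.1 • φ (polarCoord.symm p + (z.re, z.im)) =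
      ∫ p in polarCoord.target, (Ioo (0 : ℝ) r ×ˢ Ioo (-Real.pi) Real.pi).indicator ψ p := by
    refine setIntegral_congr_fun (by
      rw [polarCoord_target]
      exact measurableSet_Ioi.prod measurableSet_Ioo) ?_
    intro p hp
    rw [polarCoord_target] at hp
    obtain ⟨hp1, hp2⟩ := hp
    have hp1' : 0 < p.1 := hp1
    show p.1 • φ (polarCoord.symm p + (z.re, z.im)) = _
    have hsymm : polarCoord.symm p = (p.1 * Real.cos p.2, p.1 * Real.sin p.2) := rfl
    rw [hsymm]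
    by_cases hlt : p.1 < r
    · rw [indicator_of_mem (show p ∈ Ioo (0 : ℝ) r ×ˢ Ioo (-Real.pi) Real.pi from
        ⟨⟨hp1', hlt⟩, hp2⟩)]
      show p.1 • (disc z r).indicator _ _ = _
      rw [indicator_of_mem]
      · show p.1 * ‖g _‖ = p.1 * ‖g _‖
        congr 3
        apply Complex.ext <;> simp <;> ring
      · show (p.1 * Real.cos p.2 + z.re - z.re) ^ 2 + (p.1 * Real.sin p.2 + z.im - z.im) ^ 2 < r ^ 2
        have : (p.1 * Real.cos p.2 + z.re - z.re) ^ 2 + (p.1 * Real.sin p.2 + z.im - z.im) ^ 2 =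
            p.1 ^ 2 * (Real.cos p.2 ^ 2 + Real.sin p.2 ^ 2) := by ring
        rw [this, Real.cos_sq_add_sin_sq, mul_one]
        exact pow_lt_pow_left₀ hlt hp1'.le (by norm_num)
    · rw [indicator_of_notMem (show p ∉ Ioo (0 : ℝ) r ×ˢ Ioo (-Real.pi) Real.pi from
        fun h => hlt h.1.2)]
      show p.1 • (disc z r).indicator _ _ = _
      rw [indicator_of_notMem]
      · simp
      · show ¬ (p.1 * Real.cos p.2 + z.re - z.re) ^ 2 + (p.1 * Real.sin p.2 + z.im - z.im) ^ 2 < r ^ 2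
        have : (p.1 * Real.cos p.2 + z.re - z.re) ^ 2 + (p.1 * Real.sin p.2 + z.im - z.im) ^ 2 =
            p.1 ^ 2 * (Real.cos p.2 ^ 2 + Real.sin p.2 ^ 2) := by ring
        rw [this, Real.cos_sq_add_sin_sq, mul_one, not_lt]
        exact pow_le_pow_left₀ hr.le (not_lt.1 hlt) 2
  have h4 : ∫ p in polarCoord.target, (Ioo (0 : ℝ) r ×ˢ Ioo (-Real.pi) Real.pi).indicator ψ p =
      ∫ p in Ioo (0 : ℝ) r ×ˢ Ioo (-Real.pi) Real.pi, ψ p := by
    rw [setIntegral_indicator (measurableSet_Ioo.prod measurableSet_Ioo)]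
    congr 2
    rw [polarCoord_target]
    ext p
    constructor
    · rintro ⟨-, h⟩
      exact h
    · intro h
      exact ⟨⟨h.1.1, h.2⟩, h⟩
  have hψc : Continuous ψ := by
    show Continuous fun p : ℝ × ℝ => p.1 * ‖g (z + (p.1 * Real.cos p.2 : ℝ) +
      (p.1 * Real.sin p.2 : ℝ) * Complex.I)‖
    fun_prop
  have hψi : IntegrableOn ψ (Ioo (0 : ℝ) r ×ˢ Ioo (-Real.pi) Real.pi) (volume.prod volume) := by
    have hK : IsCompact (Icc (0 : ℝ) r ×ˢ Icc (-Real.pi) Real.pi) := isCompact_Icc.prod isCompact_Icc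
    exact (hψc.continuousOn.integrableOn_compact hK).mono_set
      (prod_mono Ioo_subset_Icc_self Ioo_subset_Icc_self)
  have h5 : ∫ p in Ioo (0 : ℝ) r ×ˢ Ioo (-Real.pi) Real.pi, ψ p =
      ∫ x in Ioo (0 : ℝ) r, ∫ y in Ioo (-Real.pi) Real.pi, ψ (x, y) :=
    setIntegral_prod ψ hψi
  rw [h0, h1, h2, h3, h4, h5]
  have h6 : ∫ x in Ioo (0 : ℝ) r, x * (2 * Real.pi * ‖g z‖) = Real.pi * r ^ 2 * ‖g z‖ := by
    rw [integral_mul_const, ← integral_Ioc_eq_integral_Ioo,
      ← intervalIntegral.integral_of_le hr.le, integral_id]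
    ring
  rw [← h6]
  have hprod : IntegrableOn (fun x : ℝ => ∫ y in Ioo (-Real.pi) Real.pi, ψ (x, y))
      (Ioo (0 : ℝ) r) := by
    have := hψi
    rw [IntegrableOn, ← Measure.prod_restrict] at this
    exact this.integral_prod_left
  refine setIntegral_mono_on ?_ hprod measurableSet_Ioo ?_
  · have : Continuous fun x : ℝ => x * (2 * Real.pi * ‖g z‖) := by fun_prop
    exact (this.continuousOn.integrableOn_Icc).mono_set Ioo_subset_Icc_self
  · intro x hx
    show x * (2 * Real.pi * ‖g z‖) ≤ ∫ y in Ioo (-Real.pi) Real.pi, x * ‖g (z +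
      (x * Real.cos y : ℝ) + (x * Real.sin y : ℝ) * Complex.I)‖
    rw [integral_const_mul]
    exact mul_le_mul_of_nonneg_left (circle_mean hg z x) hx.1.le

end Pool.Agent.Helper9.KC
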