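import Pool.Agent.Helper60.KS.St
import Pool.Agent.Helper9.KC.Subharm

/-! KC-2: mean value at well spaced complex points. -/

set_option autoImplicit false
open MeasureTheory Set

namespace Pool.Agent.Helper9.KC

open Pool.Agent.Helper60.KS

/-- sums over well spaced points are bounded by area integrals over rectangles -/
theorem sum_area {g : ℂ → ℂ} (hg : Differentiable ℂ g) {Z : Finset ℂ} {b b' T r : ℝ} (hr : 0 < r)
    (hr2 : r ≤ 1 / 2) (hZ : InStrip Z b b' T) (hs : Spaced1 Z) :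
    Real.pi * r ^ 2 * ∑ ρ ∈ Z, ‖g ρ‖ ≤
      ∫ x in Icc (b - r) (b' + r), ∫ t in Icc (-(T + 1 / 2)) (T + 1 / 2),
        ‖g ((x : ℂ) + (t : ℂ) * Complex.I)‖ := by
  let G : ℝ × ℝ → ℝ := fun p => ‖g ((p.1 : ℂ) + (p.2 : ℂ) * Complex.I)‖
  have hG : Continuous G := by
    have := hg.continuous
    show Continuous fun p : ℝ × ℝ => ‖g ((p.1 : ℂ) + (p.2 : ℂ) * Complex.I)‖
    fun_prop
  let K : Set (ℝ × ℝ) := Icc (b - r) (b' + r) ×ˢ Icc (-(T + 1 / 2)) (T + 1 / 2)
  have hK : IsCompact K := isCompact_Icc.prod isCompact_Icc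
  have hGi : IntegrableOn G K := hG.continuousOn.integrableOn_compact hK
  have habs : ∀ {x y : ℝ}, x ^ 2 + y ^ 2 < r ^ 2 → |x| < r ∧ |y| < r := by
    intro x y h
    constructor
    · exact abs_lt_of_sq_lt_sq (by nlinarith [sq_nonneg y]) hr.le
    · exact abs_lt_of_sq_lt_sq (by nlinarith [sq_nonneg x]) hr.le
  have hsub : ∀ ρ ∈ Z, disc ρ r ⊆ K := by
    intro ρ hρ p hp
    obtain ⟨h1, h2, h3⟩ := hZ ρ hρ
    obtain ⟨h4, h5⟩ := habs (show (p.1 - ρ.re) ^ 2 + (p.2 - ρ.im) ^ 2 < r ^ 2 from hp)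
    rw [abs_lt] at h4 h5
    rw [abs_le] at h3
    exact ⟨⟨by linarith, by linarith⟩, ⟨by linarith, by linarith⟩⟩
  have hdis : Set.Pairwise (↑Z : Set ℂ) (Function.onFun Disjoint fun ρ => disc ρ r) := by
    intro ρ hρ ρ' hρ' hne
    rw [Function.onFun, Set.disjoint_left]
    intro p hp hp'
    have h1 := hs ρ hρ ρ' hρ' hne
    have h2 := (habs (show (p.1 - ρ.re) ^ 2 + (p.2 - ρ.im) ^ 2 < r ^ 2 from hp)).2
    have h3 := (habs (show (p.1 - ρ'.re) ^ 2 + (p.2 - ρ'.im) ^ 2 < r ^ 2 from hp')).2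
    rw [abs_lt] at h2 h3
    rcases le_abs.1 h1 with h | h <;> linarith
  have h1 : Real.pi * r ^ 2 * ∑ ρ ∈ Z, ‖g ρ‖ ≤ ∑ ρ ∈ Z, ∫ p in disc ρ r, G p := by
    rw [Finset.mul_sum]
    exact Finset.sum_le_sum fun ρ _ => area_mean hg ρ hr
  have h2 : ∑ ρ ∈ Z, ∫ p in disc ρ r, G p = ∫ p in ⋃ ρ ∈ Z, disc ρ r, G p :=
    (integral_biUnion_finset Z (fun ρ _ => measurableSet_disc ρ r) hdis
      (fun ρ hρ => hGi.mono_set (hsub ρ hρ))).symm
  have h3 : ∫ p in ⋃ ρ ∈ Z, disc ρ r, G p ≤ ∫ p in K, G p := by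
    refine setIntegral_mono_set hGi (Filter.Eventually.of_forall fun p => norm_nonneg _) ?_
    refine HasSubset.Subset.eventuallyLE ?_
    exact Set.iUnion₂_subset hsub
  have h4 : ∫ p in K, G p = ∫ x in Icc (b - r) (b' + r),
      ∫ t in Icc (-(T + 1 / 2)) (T + 1 / 2), G (x, t) := setIntegral_prod G hGi
  rw [h2] at h1
  exact h1.trans (h3.trans h4.le)

theorem discMV : MeanValue → DiscMV := by
  rintro ⟨C₀, hC₀, hMV⟩
  refine ⟨2 * Real.exp (9 / 4) * C₀ / Real.pi, by positivity, ?_⟩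
  intro ι S a y T b b' r M Z hT hr hr2 hbb hbb' hZ hs hM
  have hpi := Real.pi_pos
  let F : ℂ → ℂ := fun s => ∑ j ∈ S, a j * Complex.exp ((y j : ℂ) * s)
  have hF : Differentiable ℂ F := by
    show Differentiable ℂ fun s => ∑ j ∈ S, a j * Complex.exp ((y j : ℂ) * s)
    fun_prop
  have hF2 : Differentiable ℂ fun s => F s ^ 2 := hF.pow 2
  have hM0 : 0 ≤ M := by
    refine le_trans ?_ (hM b (by linarith) (by linarith))
    refine Finset.sum_nonneg fun j _ => Finset.sum_nonneg fun k _ => ?_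
    split_ifs
    · positivity
    · exact le_rfl
  have key : Real.pi * r ^ 2 * ∑ ρ ∈ Z, ‖F ρ ^ 2‖ ≤ 2 * (Real.exp (9 / 4) * (C₀ * T * M)) := by
    refine (sum_area hF2 hr hr2 hZ hs).trans ?_
    -- each vertical line
    have hline : ∀ x ∈ Icc (b - r) (b' + r), ∫ t in Icc (-(T + 1 / 2)) (T + 1 / 2),
        ‖F ((x : ℂ) + (t : ℂ) * Complex.I) ^ 2‖ ≤ Real.exp (9 / 4) * (C₀ * T * M) := by
      intro x hx
      let c : ι → ℂ := fun j => a j * (Real.exp (x * y j) : ℂ)
      have hFc : ∀ t : ℝ, F ((x : ℂ) + (t : ℂ) * Complex.I) =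
          ∑ j ∈ S, c j * Complex.exp (Complex.I * ((y j * t : ℝ) : ℂ)) := by
        intro t
        refine Finset.sum_congr rfl fun j _ => ?_
        show a j * Complex.exp ((y j : ℂ) * ((x : ℂ) + (t : ℂ) * Complex.I)) = _
        show _ = a j * (Real.exp (x * y j) : ℂ) * Complex.exp (Complex.I * ((y j * t : ℝ) : ℂ))
        rw [mul_assoc, Complex.ofReal_exp, ← Complex.exp_add]
        congr 2
        push_cast
        ring
      let W : ℝ → ℝ := fun t => Real.exp (-(t / T) ^ 2) *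
        ‖∑ j ∈ S, c j * Complex.exp (Complex.I * ((y j * t : ℝ) : ℂ))‖ ^ 2
      have hWc : Continuous W := by
        show Continuous fun t : ℝ => Real.exp (-(t / T) ^ 2) *
          ‖∑ j ∈ S, c j * Complex.exp (Complex.I * ((y j * t : ℝ) : ℂ))‖ ^ 2
        fun_prop
      have hWi : Integrable W := by
        have hg : Integrable fun t : ℝ => (∑ j ∈ S, ‖c j‖) ^ 2 * Real.exp (-(1 / T ^ 2) * t ^ 2) :=
          (integrable_exp_neg_mul_sq (by positivity)).const_mul _
        refine hg.mono' hWc.aestronglyMeasurable (Filter.Eventually.of_forall fun t => ?_)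
        show ‖Real.exp (-(t / T) ^ 2) *
          ‖∑ j ∈ S, c j * Complex.exp (Complex.I * ((y j * t : ℝ) : ℂ))‖ ^ 2‖ ≤ _
        rw [Real.norm_of_nonneg (by positivity), mul_comm]
        have e1 : -(t / T) ^ 2 = -(1 / T ^ 2) * t ^ 2 := by ring
        rw [e1]
        refine mul_le_mul_of_nonneg_right ?_ (Real.exp_nonneg _)
        refine pow_le_pow_left₀ (norm_nonneg _) ?_ 2
        refine (norm_sum_le _ _).trans (Finset.sum_le_sum fun j _ => ?_)
        rw [norm_mul, mul_comm Complex.I, Complex.norm_exp_ofReal_mul_I, mul_one]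
      have hle1 : ∫ t in Icc (-(T + 1 / 2)) (T + 1 / 2),
          ‖F ((x : ℂ) + (t : ℂ) * Complex.I) ^ 2‖ ≤
          ∫ t in Icc (-(T + 1 / 2)) (T + 1 / 2), Real.exp (9 / 4) * W t := by
        refine setIntegral_mono_on ?_ (hWi.const_mul _).integrableOn measurableSet_Icc ?_
        · have : Continuous fun t : ℝ => ‖F ((x : ℂ) + (t : ℂ) * Complex.I) ^ 2‖ := by
            have := hF.continuous
            fun_prop
          exact this.continuousOn.integrableOn_Icc
        · intro t ht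
          show _ ≤ Real.exp (9 / 4) * (Real.exp (-(t / T) ^ 2) *
            ‖∑ j ∈ S, c j * Complex.exp (Complex.I * ((y j * t : ℝ) : ℂ))‖ ^ 2)
          rw [← hFc, norm_pow, ← mul_assoc, ← Real.exp_add]
          have e1 : (t / T) ^ 2 ≤ 9 / 4 := by
            have h1 : |t / T| ≤ 3 / 2 := by
              rw [abs_div, abs_of_pos (by linarith : 0 < T), div_le_iff₀ (by linarith)]
              have := abs_le.2 ⟨ht.1, ht.2⟩
              linarith
            have h2 : (t / T) ^ 2 = |t / T| ^ 2 := (sq_abs _).symm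
            rw [h2]
            nlinarith [abs_nonneg (t / T)]
          have e2 : 1 ≤ Real.exp (9 / 4 + -(t / T) ^ 2) := Real.one_le_exp (by linarith)
          have e3 : 0 ≤ ‖F ((x : ℂ) + (t : ℂ) * Complex.I)‖ ^ 2 := by positivity
          nlinarith
      have hle2 : ∫ t in Icc (-(T + 1 / 2)) (T + 1 / 2), Real.exp (9 / 4) * W t ≤
          Real.exp (9 / 4) * ∫ t, W t := by
        rw [integral_const_mul]
        refine mul_le_mul_of_nonneg_left ?_ (Real.exp_nonneg _)
        refine setIntegral_le_integral hWi (Filter.Eventually.of_forall fun t => ?_)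
        show 0 ≤ Real.exp (-(t / T) ^ 2) * _
        positivity
      refine hle1.trans (hle2.trans ?_)
      refine mul_le_mul_of_nonneg_left ?_ (Real.exp_nonneg _)
      refine (hMV ι S c y T hT).trans ?_
      refine mul_le_mul_of_nonneg_left ?_ (by positivity)
      refine le_trans (le_of_eq ?_) (hM x hx.1 hx.2)
      refine Finset.sum_congr rfl fun j _ => Finset.sum_congr rfl fun k _ => ?_
      have hc : ∀ i, ‖c i‖ = ‖a i‖ * Real.exp (x * y i) := by
        intro i
        show ‖a i * (Real.exp (x * y i) : ℂ)‖ = _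
        rw [norm_mul, Complex.norm_real, Real.norm_of_nonneg (Real.exp_nonneg _)]
      split_ifs
      · rw [hc, hc, mul_add, Real.exp_add]
        ring
      · rfl
    have hprod : IntegrableOn (fun x : ℝ => ∫ t in Icc (-(T + 1 / 2)) (T + 1 / 2),
        ‖F ((x : ℂ) + (t : ℂ) * Complex.I) ^ 2‖) (Icc (b - r) (b' + r)) := by
      have hc : Continuous fun p : ℝ × ℝ => ‖F ((p.1 : ℂ) + (p.2 : ℂ) * Complex.I) ^ 2‖ := by
        have := hF.continuous
        fun_prop
      have h := hc.continuousOn.integrableOn_compact (μ := volume.prod volume)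
        ((isCompact_Icc (a := b - r) (b := b' + r)).prod
          (isCompact_Icc (a := -(T + 1 / 2)) (b := T + 1 / 2)))
      rw [IntegrableOn, ← Measure.prod_restrict] at h
      exact h.integral_prod_left
    have hD : 0 ≤ Real.exp (9 / 4) * (C₀ * T * M) := by positivity
    calc ∫ x in Icc (b - r) (b' + r), ∫ t in Icc (-(T + 1 / 2)) (T + 1 / 2),
          ‖F ((x : ℂ) + (t : ℂ) * Complex.I) ^ 2‖ ≤
          ∫ x in Icc (b - r) (b' + r), Real.exp (9 / 4) * (C₀ * T * M) :=
          setIntegral_mono_on hprod (integrableOn_const (by simp)) measurableSet_Icc hline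
      _ = (b' + r - (b - r)) * (Real.exp (9 / 4) * (C₀ * T * M)) := by
          rw [setIntegral_const]
          simp only [smul_eq_mul, Measure.real, Real.volume_Icc]
          rw [ENNReal.toReal_ofReal (by linarith)]
      _ ≤ 2 * (Real.exp (9 / 4) * (C₀ * T * M)) :=
          mul_le_mul_of_nonneg_right (by linarith) hD
  have hgoal : ∑ ρ ∈ Z, ‖F ρ‖ ^ 2 ≤ 2 * Real.exp (9 / 4) * C₀ / Real.pi / r ^ 2 * T * M := by
    have e : ∑ ρ ∈ Z, ‖F ρ ^ 2‖ = ∑ ρ ∈ Z, ‖F ρ‖ ^ 2 :=
      Finset.sum_congr rfl fun ρ _ => norm_pow _ _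
    rw [e] at key
    have hp : 0 < Real.pi * r ^ 2 := by positivity
    have : 2 * Real.exp (9 / 4) * C₀ / Real.pi / r ^ 2 * T * M =
        2 * (Real.exp (9 / 4) * (C₀ * T * M)) / (Real.pi * r ^ 2) := by
      field_simp
    rw [this, le_div_iff₀ hp, mul_comm]
    exact key
  exact hgoal

end Pool.Agent.Helper9.KC
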